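import Pool.Agent.helper85.PG.Spec

/-!
# Module `GR` of the project PG: growth of the balls of a system
-/

set_option autoImplicit false

namespace Pool.Agent.helper85.PG

open Module

/-- every vector of the span of the first coordinates is near to a first coordinate of the group. -/
theorem GR_key {E : Type} [NormedAddCommGroup E] [NormedSpace ℝ E] {H : Type} [AddCommGroup H]
    (G : AddSubgroup (E × H)) (hFB : FB G) (l : ℝ) (s : ℕ)
    (hs : finrank ℝ (Submodule.span ℝ (Prod.fst '' ball G l)) = s) :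
    ∀ e ∈ Submodule.span ℝ (Prod.fst '' ball G l), ∃ g ∈ G, ‖g.1 - e‖ ≤ (s : ℝ) * l / 2 := by
  classical
  have hfin : (Prod.fst '' ball G l).Finite := (hFB l).image _
  obtain ⟨b, hbsub, hbspan, hbli⟩ := exists_linearIndependent ℝ (Prod.fst '' ball G l)
  have hbfin : b.Finite := hfin.subset hbsub
  have hcard : hbfin.toFinset.card = s := by
    have h1 : LinearIndepOn ℝ id ((hbfin.toFinset : Finset E) : Set E) := by
      rw [Set.Finite.coe_toFinset]
      exact hbli
    have h2 := finrank_span_finset_eq_card (R := ℝ) h1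
    rw [← h2, Set.Finite.coe_toFinset, hbspan, hs]
  have hy : ∀ v ∈ b, ∃ y : H, (v, y) ∈ ball G l := by
    intro v hv
    obtain ⟨z, hz, hzv⟩ := hbsub hv
    refine ⟨z.2, ?_⟩
    rw [← hzv]
    exact hz
  choose! y hy using hy
  intro e he
  rw [← hbspan, ← Set.Finite.coe_toFinset hbfin] at he
  obtain ⟨c, -, hc⟩ := Submodule.mem_span_finset.1 he
  refine ⟨∑ v ∈ hbfin.toFinset, round (c v) • ((v, y v) : E × H), ?_, ?_⟩
  · refine G.sum_mem ?_
    intro v hv
    exact G.zsmul_mem (hy v (hbfin.mem_toFinset.1 hv)).1 _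
  · have h1 : (∑ v ∈ hbfin.toFinset, round (c v) • ((v, y v) : E × H)).1 - e =
        ∑ v ∈ hbfin.toFinset, ((round (c v) : ℝ) - c v) • v := by
      rw [← hc, Prod.fst_sum, ← Finset.sum_sub_distrib]
      refine Finset.sum_congr rfl ?_
      intro v _
      rw [sub_smul, Prod.smul_fst, Int.cast_smul_eq_zsmul]
    rw [h1]
    refine (norm_sum_le _ _).trans ?_
    have h2 : ∀ v ∈ hbfin.toFinset, ‖((round (c v) : ℝ) - c v) • v‖ ≤ l / 2 := by
      intro v hv
      have h3 : ‖v‖ ≤ l := (hy v (hbfin.mem_toFinset.1 hv)).2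
      rw [norm_smul, Real.norm_eq_abs, abs_sub_comm]
      have h4 := abs_sub_round (c v)
      have h5 : 0 ≤ ‖v‖ := norm_nonneg v
      nlinarith
    refine (Finset.sum_le_card_nsmul _ _ _ h2).trans ?_
    rw [hcard, nsmul_eq_mul]
    linarith

theorem GR (hV2 : V2_stmt) : GR_stmt := by
  classical
  intro E _ _ _ H _ G hFB l R hl hR s hs
  have hδ : 0 < ((s : ℝ) + 3) * l := by positivity
  obtain ⟨T, hT1, hT2, hT3⟩ := hV2 (Submodule.span ℝ (Prod.fst '' ball G l)) (((s : ℝ) + 3) * l) R hδ hR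
  rw [hs] at hT3
  have key := GR_key G hFB l s hs
  have key2 : ∀ e : Submodule.span ℝ (Prod.fst '' ball G l), ∃ g ∈ G, ‖g.1 - (e : E)‖ ≤ (s : ℝ) * l / 2 :=
    fun e => key e e.2
  choose g hg1 hg2 using key2
  have hmap : ((T : Set (Submodule.span ℝ (Prod.fst '' ball G l))) ×ˢ ball G l).ncard ≤
      (ball G (R + (1 + (s : ℝ) / 2) * l)).ncard := by
    refine Set.ncard_le_ncard_of_injOn (fun q => g q.1 + q.2) ?_ ?_ (hFB _)
    · rintro ⟨e, z⟩ ⟨he, hz⟩
      have he' : e ∈ T := he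
      refine ⟨G.add_mem (hg1 e) hz.1, ?_⟩
      have h1 : ‖(g e).1‖ ≤ ‖(g e).1 - (e : E)‖ + ‖(e : E)‖ := by
        calc ‖(g e).1‖ = ‖((g e).1 - (e : E)) + (e : E)‖ := by rw [sub_add_cancel]
          _ ≤ _ := norm_add_le _ _
      have h2 : ‖(e : E)‖ ≤ R := hT1 e he'
      have h3 : ‖(g e + z).1‖ ≤ ‖(g e).1‖ + ‖z.1‖ := norm_add_le _ _
      have h4 := hg2 e
      have h5 : ‖z.1‖ ≤ l := hz.2
      linarith
    · rintro ⟨e, z⟩ ⟨he, hz⟩ ⟨e', z'⟩ ⟨he', hz'⟩ hqq
      have hqq' : g e + z = g e' + z' := hqq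
      have hTe : e ∈ T := he
      have hTe' : e' ∈ T := he'
      have hee : e = e' := by
        by_contra hne
        have h1 := hT2 e hTe e' hTe' hne
        have h2 : ‖e - e'‖ = ‖(e : E) - (e' : E)‖ := rfl
        have h3 : (g e).1 + z.1 = (g e').1 + z'.1 := congrArg Prod.fst hqq'
        have h4 : (e : E) - (e' : E) = ((g e').1 - (e' : E)) - ((g e).1 - (e : E)) + (z'.1 - z.1) := by
          have h5 : (g e).1 = (g e').1 + z'.1 - z.1 := by rw [← h3]; abel
          rw [h5]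
          abel
        have h6 : ‖(e : E) - (e' : E)‖ ≤ ‖(g e').1 - (e' : E)‖ + ‖(g e).1 - (e : E)‖ + (‖z'.1‖ + ‖z.1‖) := by
          rw [h4]
          exact (norm_add_le _ _).trans (add_le_add (norm_sub_le _ _) (norm_sub_le _ _))
        have h7 := hg2 e
        have h8 := hg2 e'
        have h9 : ‖z.1‖ ≤ l := hz.2
        have h10 : ‖z'.1‖ ≤ l := hz'.2
        rw [h2] at h1
        nlinarith
      subst hee
      have h1 : z = z' := add_left_cancel hqq'
      rw [h1]
  rw [Set.ncard_prod, Set.ncard_coe_finset] at hmap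
  calc (R / (((s : ℝ) + 3) * l)) ^ s * ((ball G l).ncard : ℝ) ≤ (T.card : ℝ) * ((ball G l).ncard : ℝ) :=
        mul_le_mul_of_nonneg_right hT3 (Nat.cast_nonneg _)
    _ = ((T.card * (ball G l).ncard : ℕ) : ℝ) := by push_cast; ring
    _ ≤ _ := by exact_mod_cast hmap

end Pool.Agent.helper85.PG
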