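import Pool.Agent.helper85.PG.Spec2

/-!
# Module `INT` of the project PG: intersections and sums of systems
-/

set_option autoImplicit false

namespace Pool.Agent.helper85.PG

open Module Pointwise

theorem INT_inter {p : ℕ} [Fact p.Prime] {E E' : Type} [NormedAddCommGroup E] [NormedSpace ℝ E] [NormedAddCommGroup E']
    [NormedSpace ℝ E'] [FiniteDimensional ℝ E] [FiniteDimensional ℝ E'] (G : AddSubgroup (E × ZMod p))
    (G' : AddSubgroup (E' × ZMod p)) (hFB : FB G) (hFB' : FB G') :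
    ∃ L : AddSubgroup ((E × E') × ZMod p), FB L ∧ ∀ R, PP L R = PP G R ∩ PP G' R := by
  classical
  refine ⟨(G.comap (AddMonoidHom.prod ((AddMonoidHom.fst E E').comp (AddMonoidHom.fst (E × E') (ZMod p)))
    (AddMonoidHom.snd (E × E') (ZMod p)))) ⊓ (G'.comap (AddMonoidHom.prod ((AddMonoidHom.snd E E').comp
    (AddMonoidHom.fst (E × E') (ZMod p))) (AddMonoidHom.snd (E × E') (ZMod p)))), ?_, ?_⟩
  · intro R
    have hfin : ((ball G R) ×ˢ (ball G' R)).Finite := (hFB R).prod (hFB' R)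
    refine (hfin.image (fun q : (E × ZMod p) × (E' × ZMod p) => (((q.1.1, q.2.1), q.1.2) : (E × E') × ZMod p))).subset ?_
    rintro ⟨⟨x, x'⟩, y⟩ ⟨⟨h1, h2⟩, h3⟩
    have h1' : (x, y) ∈ G := h1
    have h2' : (x', y) ∈ G' := h2
    have h3' : ‖((x, x') : E × E')‖ ≤ R := h3
    refine ⟨((x, y), (x', y)), ⟨⟨h1', ?_⟩, ⟨h2', ?_⟩⟩, rfl⟩
    · exact (norm_fst_le (x, x')).trans h3'
    · exact (norm_snd_le (x, x')).trans h3'
  · intro R
    ext y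
    rw [Finset.mem_inter, mem_PP, mem_PP, mem_PP]
    constructor
    · rintro ⟨⟨x, x'⟩, ⟨h1, h2⟩, h3⟩
      exact ⟨⟨x, h1, (norm_fst_le (x, x')).trans h3⟩, ⟨x', h2, (norm_snd_le (x, x')).trans h3⟩⟩
    · rintro ⟨⟨x, h1, h3⟩, ⟨x', h2, h4⟩⟩
      exact ⟨(x, x'), ⟨h1, h2⟩, norm_prod_le_iff.2 ⟨h3, h4⟩⟩

theorem INT_sum {p : ℕ} [Fact p.Prime] {E E' : Type} [NormedAddCommGroup E] [NormedSpace ℝ E] [NormedAddCommGroup E']
    [NormedSpace ℝ E'] [FiniteDimensional ℝ E] [FiniteDimensional ℝ E'] (G : AddSubgroup (E × ZMod p))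
    (G' : AddSubgroup (E' × ZMod p)) (hFB : FB G) (hFB' : FB G') :
    ∃ L : AddSubgroup ((E × E') × ZMod p), FB L ∧ ∀ R, PP L R = PP G R + PP G' R := by
  classical
  refine ⟨(G.prod G').map (AddMonoidHom.prod (AddMonoidHom.prod ((AddMonoidHom.fst E (ZMod p)).comp
      (AddMonoidHom.fst (E × ZMod p) (E' × ZMod p))) ((AddMonoidHom.fst E' (ZMod p)).comp
      (AddMonoidHom.snd (E × ZMod p) (E' × ZMod p))))
    ((AddMonoidHom.snd E (ZMod p)).comp (AddMonoidHom.fst (E × ZMod p) (E' × ZMod p)) +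
      (AddMonoidHom.snd E' (ZMod p)).comp (AddMonoidHom.snd (E × ZMod p) (E' × ZMod p)))), ?_, ?_⟩
  · intro R
    have hfin : ((ball G R) ×ˢ (ball G' R)).Finite := (hFB R).prod (hFB' R)
    refine (hfin.image (fun q : (E × ZMod p) × (E' × ZMod p) => (((q.1.1, q.2.1), q.1.2 + q.2.2) : (E × E') × ZMod p))).subset ?_
    rintro ⟨⟨x, x'⟩, y⟩ ⟨⟨⟨⟨a, b⟩, ⟨a', b'⟩⟩, ⟨h1, h2⟩, h4⟩, h3⟩
    have h4' : (((a, a'), b + b') : (E × E') × ZMod p) = ((x, x'), y) := h4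
    obtain ⟨h5, h6⟩ := Prod.mk.inj h4'
    obtain ⟨h7, h8⟩ := Prod.mk.inj h5
    subst h7 h8 h6
    have h3' : ‖((a, a') : E × E')‖ ≤ R := h3
    exact ⟨((a, b), (a', b')), ⟨⟨h1, (norm_fst_le (a, a')).trans h3'⟩, ⟨h2, (norm_snd_le (a, a')).trans h3'⟩⟩, rfl⟩
  · intro R
    ext y
    rw [Finset.mem_add, mem_PP]
    constructor
    · rintro ⟨⟨x, x'⟩, ⟨⟨⟨a, b⟩, ⟨a', b'⟩⟩, ⟨h1, h2⟩, h4⟩, h3⟩
      have h4' : (((a, a'), b + b') : (E × E') × ZMod p) = ((x, x'), y) := h4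
      obtain ⟨h5, h6⟩ := Prod.mk.inj h4'
      obtain ⟨h7, h8⟩ := Prod.mk.inj h5
      subst h7 h8 h6
      exact ⟨b, (mem_PP _ _ _).2 ⟨a, h1, (norm_fst_le (a, a')).trans h3⟩, b', (mem_PP _ _ _).2 ⟨a', h2, (norm_snd_le (a, a')).trans h3⟩, rfl⟩
    · rintro ⟨b, hb, b', hb', hy⟩
      obtain ⟨a, h1, h3⟩ := (mem_PP _ _ _).1 hb
      obtain ⟨a', h2, h4⟩ := (mem_PP _ _ _).1 hb'
      refine ⟨(a, a'), ⟨((a, b), (a', b')), ⟨h1, h2⟩, ?_⟩, norm_prod_le_iff.2 ⟨h3, h4⟩⟩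
      rw [← hy]
      rfl

theorem INT : INT_stmt := by
  intro p _ d d' P P' h h'
  obtain ⟨E, _, _, G, _, hd, hFB, hP⟩ := h
  obtain ⟨E', _, _, G', _, hd', hFB', hP'⟩ := h'
  have hrank : finrank ℝ (E × E') ≤ d + d' := by
    rw [Module.finrank_prod]
    exact add_le_add hd hd'
  constructor
  · obtain ⟨L, hL, hLP⟩ := INT_inter G G' hFB hFB'
    refine ⟨E × E', inferInstance, inferInstance, L, inferInstance, hrank, hL, ?_⟩
    intro R
    rw [hLP, ← hP, ← hP']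
  · obtain ⟨L, hL, hLP⟩ := INT_sum G G' hFB hFB'
    refine ⟨E × E', inferInstance, inferInstance, L, inferInstance, hrank, hL, ?_⟩
    intro R
    rw [hLP, ← hP, ← hP']

end Pool.Agent.helper85.PG
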