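import Pool.Agent.helper33.PG.Spec

/-!
# Project PG, row CON: `D^e` divides `W`
-/

set_option autoImplicit false

namespace Pool.Agent.PG

open Polynomial Finset

theorem CON (hDEC : DEC_stmt) : CON_stmt := by
  intro N n k q r e a b hN hdvd he ha
  have hdvd' : ((k : ℤ) * 2 ^ n + 1) ^ e ∣ 2 ^ N + 1 := by exact_mod_cast hdvd
  obtain ⟨t, ht⟩ := hdvd'
  have hS : (S q a b).eval (-((k : ℤ) * 2 ^ n)) = ((k : ℤ) * 2 ^ n + 1) ^ e * (G q a b).eval (-((k : ℤ) * 2 ^ n)) := by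
    unfold S
    rw [he, Polynomial.eval_mul, Polynomial.eval_pow, Polynomial.eval_sub, Polynomial.eval_one, Polynomial.eval_X]
    have : (1 : ℤ) - -((k : ℤ) * 2 ^ n) = (k : ℤ) * 2 ^ n + 1 := by ring
    rw [this]
  have hS2 : (S q a b).eval (-((k : ℤ) * 2 ^ n)) = (A q a b).eval (-((k : ℤ) * 2 ^ n)) +
      (-((k : ℤ) * 2 ^ n)) ^ q * (B q a b).eval (-((k : ℤ) * 2 ^ n)) := by
    rw [hDEC q a b ha, Polynomial.eval_add, Polynomial.eval_mul, Polynomial.eval_pow, Polynomial.eval_X]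
  have hx : (2 : ℤ) ^ r * (-((k : ℤ) * 2 ^ n)) ^ q = (-1) ^ q * (k : ℤ) ^ q * 2 ^ N := by
    rw [hN, pow_add, mul_comm q n, pow_mul, neg_pow, mul_pow]
    ring
  refine ⟨2 ^ r * (G q a b).eval (-((k : ℤ) * 2 ^ n)) -
    (-1) ^ q * (k : ℤ) ^ q * t * (B q a b).eval (-((k : ℤ) * 2 ^ n)), ?_⟩
  unfold W
  linear_combination (2 : ℤ) ^ r * (hS - hS2) - (B q a b).eval (-((k : ℤ) * 2 ^ n)) * hx -
    (-1) ^ q * (k : ℤ) ^ q * (B q a b).eval (-((k : ℤ) * 2 ^ n)) * ht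

end Pool.Agent.PG
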