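import Pool.Agent.helper33.PG.Spec

/-!
# Project PG, row FDZ: the `M`-th difference of a polynomial of degree `< M` is zero
-/

set_option autoImplicit false

namespace Pool.Agent.PG

open Polynomial Finset

theorem FDZ : FDZ_stmt := by
  intro M f hf x
  rcases Nat.eq_zero_or_pos M with hM | hM
  · subst hM
    have h0 : f = 0 := by
      by_contra hne
      have := Polynomial.degree_eq_natDegree hne
      rw [this] at hf
      have h2 : f.natDegree < 0 := by exact_mod_cast hf
      exact absurd h2 (Nat.not_lt_zero _)
    rw [h0]
    simp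
  · have hd : f.natDegree < M := by
      rcases eq_or_ne f 0 with h0 | hne
      · rw [h0, Polynomial.natDegree_zero]; exact hM
      · exact (Polynomial.natDegree_lt_iff_degree_lt hne).2 hf
    have h1 := congrFun (Polynomial.fwdDiff_iter_eq_zero_of_degree_lt hd) (x - M)
    rw [fwdDiff_iter_eq_sum_shift, Pi.zero_apply] at h1
    rw [← h1, ← Finset.sum_range_reflect]
    refine Finset.sum_congr rfl fun i hi => ?_
    have hi' : i ≤ M := Nat.lt_succ_iff.1 (Finset.mem_range.1 hi)
    have e1 : M + 1 - 1 - i = M - i := by omega
    rw [e1, smul_eq_mul, Nat.choose_symm hi', Nat.cast_sub hi', nsmul_eq_mul, mul_one]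
    have e2 : x - ((M : ℤ) - i) = x - M + i := by ring
    rw [e2]

end Pool.Agent.PG
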