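import Pool.Agent.helper33.PG.Spec

/-!
# Project PG, row VDM: a binomial identity
-/

set_option autoImplicit false

namespace Pool.Agent.PG

open Polynomial Finset

theorem VDM_zero (b n : ℕ) : ∑ j ∈ range (n + 1), (b + j).choose b = (n + b + 1).choose (b + 1) := by
  induction n with
  | zero => simp
  | succ n ih =>
    rw [Finset.sum_range_succ, ih]
    have e1 : n + 1 + b + 1 = (n + b + 1) + 1 := by ring
    have e2 : b + (n + 1) = n + b + 1 := by ring
    rw [e1, e2, Nat.choose_succ_succ (n + b + 1) b, add_comm]

theorem VDM_full (b n : ℕ) : ∀ a : ℕ,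
    ∑ j ∈ range (n + 1), (b + j).choose b * (n - j).choose a = (n + b + 1).choose (a + b + 1) := by
  induction n with
  | zero =>
    intro a
    rcases Nat.eq_zero_or_pos a with ha | ha
    · subst ha; simp
    · rw [zero_add, Finset.sum_range_one, zero_add, Nat.choose_eq_zero_of_lt (show 0 - 0 < a by omega), mul_zero,
        Nat.choose_eq_zero_of_lt (by omega)]
  | succ n ih =>
    intro a
    rcases Nat.eq_zero_or_pos a with ha | ha
    · subst ha
      have h := VDM_zero b (n + 1)
      simp only [Nat.choose_zero_right, mul_one, zero_add]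
      exact h
    · obtain ⟨a, rfl⟩ : ∃ a', a = a' + 1 := ⟨a - 1, by omega⟩
      rw [Finset.sum_range_succ, Nat.sub_self, Nat.choose_eq_zero_of_lt (show 0 < a + 1 by omega), mul_zero, add_zero]
      have h1 : ∀ j ∈ range (n + 1), (b + j).choose b * (n + 1 - j).choose (a + 1) =
          (b + j).choose b * (n - j).choose a + (b + j).choose b * (n - j).choose (a + 1) := by
        intro j hj
        have hj' : j ≤ n := Nat.lt_succ_iff.1 (Finset.mem_range.1 hj)
        have e1 : n + 1 - j = (n - j) + 1 := by omega
        rw [e1, Nat.choose_succ_succ, mul_add]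
      rw [Finset.sum_congr rfl h1, Finset.sum_add_distrib, ih a, ih (a + 1)]
      have e1 : n + 1 + b + 1 = (n + b + 1) + 1 := by ring
      have e2 : a + 1 + b + 1 = (a + b + 1) + 1 := by ring
      rw [e1, e2, Nat.choose_succ_succ (n + b + 1) (a + b + 1)]

theorem VDM : VDM_stmt := by
  intro q a b ha
  obtain ⟨n, rfl⟩ : ∃ n, q = n + 1 := ⟨q - 1, by omega⟩
  have h := VDM_full b n a
  have e1 : n + 1 + b = n + b + 1 := by ring
  rw [e1, ← h, Nat.add_sub_cancel]
  refine Finset.sum_subset ?_ ?_
  · intro j hj
    rw [Finset.mem_range] at hj ⊢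
    omega
  · intro j hj hj'
    rw [Finset.mem_range] at hj hj'
    rw [Nat.choose_eq_zero_of_lt (show n - j < a by omega), mul_zero]

end Pool.Agent.PG
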